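import Pool.Agent.Helper4.P11.StD

/-!
# Project P11 (levels `11^n`), module Lif: lifting symbols modulo 11 to integral symbols

Adapted from `Pool/Agent/Helper86/S7/M_Lif.lean` and `Pool/Agent/Helper9/T7/M_Lif.lean`.
-/

set_option autoImplicit false

namespace Pool.Agent.Helper8.P11

open Pool.Agent.Helper14.CV (Homog EqC act Tl)
open Pool.Agent.Helper28.WK (SymP Tw evw)
open Pool.Agent.Helper4.P11
open Pool.Agent.Helper84.P11 (Fn11 edge11)
open Pool.Agent.Helper2.P11 (pf11 Df11 Rel11 S11Rel S11Ex S11Uni S11Lifp)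

/-- the reduction modulo eleven -/
private def red (G : ℤ → ℤ → ℤ) : ℤ → ℤ → ZMod 11 := fun p q => ((G p q : ℤ) : ZMod 11)

private theorem red_Sym {r s : ℕ} {G : ℤ → ℤ → ℤ} (h : SymP 11 r s G) : SymP 11 r s (red G) := by
  refine ⟨?_, ?_⟩
  · intro k p q hk hpq
    change ((G (k * p) (k * q) : ℤ) : ZMod 11) = ((G p q : ℤ) : ZMod 11)
    rw [h.1 k p q hk hpq]
  · intro a b c d hdet hb hc
    obtain ⟨e, he⟩ := h.2 a b c d hdet hb hc
    refine ⟨(e : ZMod 11), ?_⟩
    intro p q hpq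
    have h1 := he p q hpq
    have h2 : G (a * p + b * q) (c * p + d * q) = G p q + e := h1
    change ((G (a * p + b * q) (c * p + d * q) : ℤ) : ZMod 11) = ((G p q : ℤ) : ZMod 11) + e
    rw [h2, Int.cast_add]

private theorem red_Tl (l : ℕ) (m : ℤ) (G : ℤ → ℤ → ℤ) : Tl l m (red G) = red (Tl l m G) := by
  funext p q
  change red G (l * p) q + ∑ j ∈ Finset.range l, red G (p + m * j * q) (l * q)
    = ((G (l * p) q + ∑ j ∈ Finset.range l, G (p + m * j * q) (l * q) : ℤ) : ZMod 11)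
  rw [Int.cast_add, Int.cast_sum]
  rfl

private theorem red_Tw (m : ℤ) (ls : List ℕ) (G : ℤ → ℤ → ℤ) :
    Tw m ls (red G) = red (Tw m ls G) := by
  induction ls with
  | nil => rfl
  | cons l ls ih =>
    change Tl l m (Tw m ls (red G)) = red (Tl l m (Tw m ls G))
    rw [ih, red_Tl]

private theorem red_add (G H : ℤ → ℤ → ℤ) : red G + red H = red (G + H) := by
  funext p q
  simp only [Pi.add_apply, red, Int.cast_add]

private theorem red_smul (k : ℤ) (G : ℤ → ℤ → ℤ) : k • red G = red (k • G) := by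
  funext p q
  simp only [Pi.smul_apply, red]
  rw [zsmul_eq_mul, smul_eq_mul, Int.cast_mul]

private theorem red_cO (W : List (ℤ × List ℕ)) (m : ℤ) (G : ℤ → ℤ → ℤ) :
    cO W m (red G) = red (cO W m G) := by
  unfold cO
  induction W with
  | nil =>
    funext p q
    simp [red]
  | cons t W ih =>
    rw [List.map_cons, List.map_cons, List.sum_cons, List.sum_cons, ih, red_Tw, red_smul, red_add]

private theorem red_iter (U : (ℤ → ℤ → ZMod 11) → (ℤ → ℤ → ZMod 11))
    (V : (ℤ → ℤ → ℤ) → (ℤ → ℤ → ℤ)) (h : ∀ G, U (red G) = red (V G)) (i : ℕ) (G : ℤ → ℤ → ℤ) :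
    U^[i] (red G) = red (V^[i] G) := by
  induction i generalizing G with
  | zero => rfl
  | succ i ih =>
    rw [Function.iterate_succ_apply, Function.iterate_succ_apply, h, ih]

private theorem red_ev (m : ℤ) (G : ℤ → ℤ → ℤ) (c i j : ℕ) :
    evM m (red G) c i j = ((evM m G c i j : ℤ) : ZMod 11) := by
  unfold evM
  rw [red_iter (cO VW m) (cO VW m) (red_cO VW m), red_iter (cO UW m) (cO UW m) (red_cO UW m),
    red_cO, Int.cast_sub]
  rfl

private theorem red_pf {q q' : ℕ} (G : ℤ → ℤ → ℤ) (i : Fin 3) (x : ZMod q) (y : ZMod q') :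
    pf11 (red G) i x y = ((pf11 G i x y : ℤ) : ZMod 11) := by
  unfold pf11 edge11
  rw [Int.cast_sub]
  rfl

private theorem sub_pf {q q' : ℕ} (G H : ℤ → ℤ → ZMod 11) (i : Fin 3) (x : ZMod q) (y : ZMod q') :
    pf11 (G + -H) i x y = pf11 G i x y - pf11 H i x y := by
  unfold pf11 edge11
  simp only [Pi.add_apply, Pi.neg_apply]
  abel

/-! `evM` depends only on the class up to constants -/

private theorem eqC_Tw (m : ℤ) {G H : ℤ → ℤ → ZMod 11} (h : EqC G H) (ls : List ℕ)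
    (hls : ∀ l ∈ ls, 0 < l) : EqC (Tw m ls G) (Tw m ls H) := by
  induction ls with
  | nil => exact h
  | cons l ls ih =>
    have h1 := ih fun k hk => hls k (List.mem_cons_of_mem _ hk)
    exact h1.Tl (hls l List.mem_cons_self) m

private theorem eqC_add {G H G' H' : ℤ → ℤ → ZMod 11} (h : EqC G H) (h' : EqC G' H') :
    EqC (G + G') (H + H') := by
  obtain ⟨c, hc⟩ := h
  obtain ⟨c', hc'⟩ := h'
  refine ⟨c + c', fun p q hpq => ?_⟩
  simp only [Pi.add_apply]
  rw [hc p q hpq, hc' p q hpq]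
  ring

private theorem eqC_zsmul {G H : ℤ → ℤ → ZMod 11} (k : ℤ) (h : EqC G H) :
    EqC (k • G) (k • H) := by
  obtain ⟨c, hc⟩ := h
  refine ⟨k • c, fun p q hpq => ?_⟩
  simp only [Pi.smul_apply]
  rw [hc p q hpq, smul_add]

private theorem eqC_cO (m : ℤ) {G H : ℤ → ℤ → ZMod 11} (h : EqC G H) (W : List (ℤ × List ℕ))
    (hW : ∀ t ∈ W, ∀ l ∈ t.2, 0 < l) : EqC (cO W m G) (cO W m H) := by
  unfold cO
  induction W with
  | nil => exact ⟨0, fun p q _ => by simp⟩
  | cons t W ih =>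
    rw [List.map_cons, List.map_cons, List.sum_cons, List.sum_cons]
    exact eqC_add (eqC_zsmul _ (eqC_Tw m h t.2 (hW t List.mem_cons_self)))
      (ih fun k hk => hW k (List.mem_cons_of_mem _ hk))

private theorem posU : ∀ t ∈ UW, ∀ l ∈ t.2, 0 < l := by decide

private theorem posV : ∀ t ∈ VW, ∀ l ∈ t.2, 0 < l := by decide

private theorem posO (c : ℕ) : ∀ t ∈ OW c, ∀ l ∈ t.2, 0 < l := by
  unfold OW
  split <;> decide

private theorem eqC_iter (U : (ℤ → ℤ → ZMod 11) → (ℤ → ℤ → ZMod 11))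
    (hU : ∀ G H, EqC G H → EqC (U G) (U H)) (i : ℕ) {G H : ℤ → ℤ → ZMod 11} (h : EqC G H) :
    EqC (U^[i] G) (U^[i] H) := by
  induction i generalizing G H with
  | zero => exact h
  | succ i ih =>
    rw [Function.iterate_succ_apply, Function.iterate_succ_apply]
    exact ih (hU G H h)

private theorem evM_congr (m : ℤ) {G H : ℤ → ℤ → ZMod 11} (h : EqC G H) (c i j : ℕ) :
    evM m G c i j = evM m H c i j := by
  obtain ⟨e, he⟩ := eqC_cO m (eqC_iter (cO UW m) (fun _ _ h => eqC_cO m h UW posU) i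
    (eqC_iter (cO VW m) (fun _ _ h => eqC_cO m h VW posV) j h)) (OW c) (posO c)
  unfold evM
  rw [he 1 0 (Or.inl one_ne_zero), he 0 1 (Or.inr one_ne_zero)]
  ring

/-- MODULE Lif. -/
theorem hLif (hr : S11Rel) (hp : S11Lifp) (hx : S11Ex) (hu : S11Uni) : TLif := by
  intro r s g hg
  have h1 := hr (ZMod 11) _ r s g hg
  obtain ⟨F, hF, hF1⟩ := hp r s _ h1
  obtain ⟨G, hG, hG1⟩ := hx ℤ _ r s F hF
  refine ⟨G, hG, ?_⟩
  have h2 : SymP 11 r (s + 1) (red G + -g) :=
    Pool.Agent.Helper14.W5.SymP.add (red_Sym hG) (Pool.Agent.Helper14.W5.SymP.neg hg)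
  have h3 : EqC (red G + -g) 0 := by
    refine hu (ZMod 11) _ r s _ h2 fun i => ?_
    funext x y
    rw [sub_pf, red_pf, hG1, hF1, sub_self]
    rfl
  have h4 : EqC (red G) g := by
    obtain ⟨c, hc⟩ := h3
    refine ⟨c, fun p q hpq => ?_⟩
    have h5 := hc p q hpq
    simp only [Pi.add_apply, Pi.neg_apply, Pi.zero_apply, zero_add] at h5
    rw [← h5]
    abel
  intro c i j
  rw [← red_ev]
  exact evM_congr _ h4 c i j

end Pool.Agent.Helper8.P11
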